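import Pool.Agent.Helper92_LUR.Defs

set_option autoImplicit false
open Filter Topology Set

namespace Helper54_LUR

section
variable {X : Type} [AddCommGroup X] [Module ℝ X]

theorem young (a b t : ℝ) (ht : 0 < t) :
    (a + b) ^ 2 ≤ (1 + t) * a ^ 2 + (1 + 1 / t) * b ^ 2 := by
  have h : 0 ≤ (t * a - b) ^ 2 / t := by positivity
  have e : (1 + t) * a ^ 2 + (1 + 1 / t) * b ^ 2 - (a + b) ^ 2 = (t * a - b) ^ 2 / t := by
    field_simp; ring
  linarith

theorem sqs_add {q₁ q₂ : X → ℝ} (h₁ : LUR.SqS q₁) (h₂ : LUR.SqS q₂) :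
    LUR.SqS (fun f => q₁ f + q₂ f) where
  nonneg f := add_nonneg (h₁.nonneg f) (h₂.nonneg f)
  smul t f := by simp only [h₁.smul, h₂.smul]; ring
  add f g t ht := by
    have a := h₁.add f g t ht
    have b := h₂.add f g t ht
    linarith

theorem sqs_mul {c : ℝ} {q : X → ℝ} (hc : 0 ≤ c) (h : LUR.SqS q) :
    LUR.SqS (fun f => c * q f) where
  nonneg f := mul_nonneg hc (h.nonneg f)
  smul t f := by simp only [h.smul]; ring
  add f g t ht := by
    have a := mul_le_mul_of_nonneg_left (h.add f g t ht) hc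
    linarith

theorem sqs_sq {q : X → ℝ} (h : LUR.Smn q) : LUR.SqS (fun f => q f ^ 2) where
  nonneg f := sq_nonneg _
  smul t f := by simp only [h.smul, mul_pow, sq_abs]
  add f g t ht := by
    calc q (f + g) ^ 2 ≤ (q f + q g) ^ 2 := by
          have := h.nonneg (f + g); have := h.add f g; gcongr
      _ ≤ _ := young _ _ _ ht

theorem sqs_sup {ι : Type} {q : ι → X → ℝ} (h : ∀ i, LUR.SqS (q i))
    (hb : ∀ f, BddAbove (range fun i => q i f)) : LUR.SqS (fun f => ⨆ i, q i f) where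
  nonneg f := Real.iSup_nonneg fun i => (h i).nonneg f
  smul t f := by
    simp only [(h _).smul]
    rw [Real.mul_iSup_of_nonneg (sq_nonneg t)]
  add f g t ht := by
    refine Real.iSup_le (fun i => ?_) ?_
    · refine ((h i).add f g t ht).trans ?_
      have h1 : q i f ≤ ⨆ i, q i f := le_ciSup (hb f) i
      have h2 : q i g ≤ ⨆ i, q i g := le_ciSup (hb g) i
      gcongr
    · have h1 : 0 ≤ ⨆ i, q i f := Real.iSup_nonneg fun i => (h i).nonneg f
      have h2 : 0 ≤ ⨆ i, q i g := Real.iSup_nonneg fun i => (h i).nonneg g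
      positivity

theorem sqs_tsum {q : ℕ → X → ℝ} (h : ∀ i, LUR.SqS (q i))
    (hs : ∀ f, Summable fun i => q i f) : LUR.SqS (fun f => ∑' i, q i f) where
  nonneg f := tsum_nonneg fun i => (h i).nonneg f
  smul t f := by simp only [(h _).smul]; rw [tsum_mul_left]
  add f g t ht := by
    rw [← tsum_mul_left, ← tsum_mul_left, ← ((hs f).mul_left _).tsum_add ((hs g).mul_left _)]
    exact (hs _).tsum_le_tsum (fun i => (h i).add f g t ht)
      (((hs f).mul_left _).add ((hs g).mul_left _))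

theorem sqrt_add {q : X → ℝ} (h : LUR.SqS q) (f g : X) :
    Real.sqrt (q (f + g)) ≤ Real.sqrt (q f) + Real.sqrt (q g) := by
  set a := Real.sqrt (q f) with ha
  set b := Real.sqrt (q g) with hb
  have ha2 : q f = a ^ 2 := (Real.sq_sqrt (h.nonneg f)).symm
  have hb2 : q g = b ^ 2 := (Real.sq_sqrt (h.nonneg g)).symm
  have ha0 : 0 ≤ a := Real.sqrt_nonneg _
  have hb0 : 0 ≤ b := Real.sqrt_nonneg _
  rw [Real.sqrt_le_left (by positivity)]
  rcases ha0.eq_or_lt with h0 | h0
  · rw [← h0] at ha2 ⊢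
    have key : ∀ t : ℝ, 0 < t → q (f + g) ≤ b ^ 2 + b ^ 2 * (1 / t) := fun t ht => by
      have := h.add f g t ht
      rw [ha2, hb2] at this
      nlinarith
    refine le_of_forall_pos_le_add fun ε hε => ?_
    refine (key ((b ^ 2 + 1) / ε) (by positivity)).trans ?_
    rw [zero_add]
    have : b ^ 2 * (1 / ((b ^ 2 + 1) / ε)) ≤ ε := by
      rw [one_div_div, mul_div_assoc', div_le_iff₀ (by positivity)]
      nlinarith
    linarith
  · rcases hb0.eq_or_lt with h1 | h1
    · rw [← h1] at hb2 ⊢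
      have key : ∀ t : ℝ, 0 < t → q (f + g) ≤ a ^ 2 + a ^ 2 * t := fun t ht => by
        have := h.add f g t ht
        rw [ha2, hb2] at this
        nlinarith
      refine le_of_forall_pos_le_add fun ε hε => ?_
      refine (key (ε / (a ^ 2 + 1)) (by positivity)).trans ?_
      rw [add_zero]
      have : a ^ 2 * (ε / (a ^ 2 + 1)) ≤ ε := by
        rw [mul_div_assoc', div_le_iff₀ (by positivity)]
        nlinarith
      linarith
    · have := h.add f g (b / a) (by positivity)
      rw [ha2, hb2] at this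
      refine this.trans (le_of_eq ?_)
      field_simp
      ring

theorem dl_nonneg {q : X → ℝ} (h : LUR.SqS q) (f g : X) : 0 ≤ LUR.Dl q f g := by
  have := h.add f g 1 one_pos
  unfold LUR.Dl
  linarith

end

theorem sq1 : LUR.SQ1 := fun X _ _ =>
  ⟨fun _ _ h₁ h₂ => sqs_add h₁ h₂, fun _ _ hc h => sqs_mul hc h, fun _ h => sqs_sq h,
    fun _ _ h hb => sqs_sup h hb, fun _ h hs => sqs_tsum h hs⟩

theorem sq2 : LUR.SQ2 := by
  intro X _ _
  refine ⟨fun q h => ?_, fun q h f g => dl_nonneg h f g, fun q h f g => ?_⟩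
  · refine ⟨Seminorm.of (fun f => Real.sqrt (q f)) (sqrt_add h) fun t f => ?_, fun f => rfl⟩
    rw [h.smul, Real.sqrt_mul (sq_nonneg _), Real.sqrt_sq_eq_abs, Real.norm_eq_abs]
  · unfold LUR.Dl
    have h1 : q (f + g) ^ 2 ≤ (q f + q g) ^ 2 := by
      have := h.nonneg (f + g); have := h.add f g; gcongr
    nlinarith

theorem step : LUR.STEP := by
  intro X _ _ Out φ q η B δ f g T hφ hq hη hδ hbdd hB hηB hgap hD
  set Q : X → ℝ := fun h => ⨆ S, (φ S h ^ 2 + η * q S h) with hQ
  have hle : ∀ S h, φ S h ^ 2 + η * q S h ≤ Q h := fun S h => le_ciSup (hbdd h) S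
  have sq : ∀ S, LUR.SqS (fun h => φ S h ^ 2) := fun S => sqs_sq (hφ S)
  haveI : Nonempty Out := ⟨T⟩
  -- near optimal outcomes at f + g
  have key : ∀ S ε, Q (f + g) - ε ≤ φ S (f + g) ^ 2 + η * q S (f + g) →
      2 * (Q f - (φ S f ^ 2 + η * q S f)) + η * LUR.Dl (q S) f g ≤ LUR.Dl Q f g + ε := by
    intro S ε h
    have h1 := dl_nonneg (sq S) f g
    have h2 := hle S g
    unfold LUR.Dl at *
    simp only at h1
    nlinarith
  have big : ∀ S, S ≠ T → δ ^ 2 ≤ 2 * (Q f - (φ S f ^ 2 + η * q S f)) := by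
    intro S hS
    have h1 := hgap S hS
    have h2 := (hφ S).nonneg f
    have h3 := hle T f
    have h4 := mul_nonneg hη.le ((hq T).nonneg f)
    have h5 := mul_le_mul_of_nonneg_left (hB S) hη.le
    nlinarith
  rw [le_div_iff₀ hη]
  refine le_of_forall_pos_le_add fun ε hε => ?_
  set ε' := min ε (δ ^ 2 / 4) with hε'
  have hε'0 : 0 < ε' := lt_min hε (by positivity)
  obtain ⟨S, hS⟩ := exists_lt_of_lt_ciSup (show Q (f + g) - ε' < ⨆ S, (φ S (f + g) ^ 2 + η * q S (f + g))
    from sub_lt_self _ hε'0)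
  have hk := key S ε' hS.le
  by_cases hST : S = T
  · subst hST
    have := hle S f
    have h3 : ε' ≤ ε := min_le_left _ _
    linarith
  · exfalso
    have h1 := big S hST
    have h2 := mul_nonneg hη.le (dl_nonneg (hq S) f g)
    have h3 : ε' ≤ δ ^ 2 / 4 := min_le_right _ _
    have h4 : 0 < δ ^ 2 := by positivity
    linarith

end Helper54_LUR
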